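import Mathlib

/-!
Class-preserving automorphisms: the group `OutC G`, the action of the lower central
series of `AutC G` on the lower central series of `G`, and local simulation.
-/

set_option autoImplicit false

namespace Pool.Agent.Helper973_OutC

open Subgroup
open scoped commutatorElement

/-- the group of class-preserving automorphisms of `G` -/
def AutC (G : Type*) [Group G] : Subgroup (MulAut G) where
  carrier := {α | ∀ x : G, IsConj x (α x)}
  mul_mem' := by
    intro α β hα hβ x
    exact (hβ x).trans (hα (β x))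
  one_mem' := fun x => IsConj.refl x
  inv_mem' := by
    intro α hα x
    have h := hα (α⁻¹ x)
    rw [MulAut.apply_inv_self] at h
    exact h.symm

/-- the inner automorphisms, as a subgroup of `AutC G` -/
def InnC (G : Type*) [Group G] : Subgroup (AutC G) :=
  ((MulAut.conj : G →* MulAut G).range).subgroupOf (AutC G)

instance InnC_normal (G : Type*) [Group G] : (InnC G).Normal := by
  constructor
  rintro ⟨a, ha⟩ h ⟨b, hb⟩
  simp only [InnC, Subgroup.mem_subgroupOf] at h ⊢
  obtain ⟨g, hg⟩ := h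
  refine ⟨b g, ?_⟩
  ext x
  have : a (b⁻¹ x) = g * (b⁻¹ x) * g⁻¹ := by
    have h1 := congrArg (fun f : MulAut G => f (b⁻¹ x)) hg
    simpa using h1.symm
  change b g * x * (b g)⁻¹ = b (a (b⁻¹ x))
  rw [this]
  simp

/-- `Out_c(G) = Aut_c(G) / Inn(G)` -/
abbrev OutC (G : Type*) [Group G] : Type _ := AutC G ⧸ InnC G

variable {G : Type*} [Group G]

/-- lower central series of `G`; `gam G n` is `γ_{n+1}(G)` -/
abbrev gam (G : Type*) [Group G] (n : ℕ) : Subgroup G := (⊤ : Subgroup G).lowerCentralSeries n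

theorem gam_char (n : ℕ) (α : MulAut G) {g : G} (hg : g ∈ gam G n) : α g ∈ gam G n := by
  have h : (gam G n).map (α : G ≃* G).toMonoidHom = gam G n := by
    rw [gam, Subgroup.map_lowerCentralSeries]
    congr 1
    exact Subgroup.map_top_of_surjective _ α.surjective
  rw [← h]
  exact ⟨g, hg, rfl⟩

theorem gam_anti : Antitone (gam G) := Subgroup.lowerCentralSeries_antitone ⊤

theorem comm_mem_left {n : ℕ} {g : G} (hg : g ∈ gam G n) (x : G) : ⁅g, x⁆ ∈ gam G (n + 1) :=
  Subgroup.commutator_mem_commutator hg (Subgroup.mem_top x)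

theorem comm_mem_right {n : ℕ} {g : G} (hg : g ∈ gam G n) (x : G) : ⁅x, g⁆ ∈ gam G (n + 1) := by
  rw [← commutatorElement_inv]
  exact (gam G (n + 1)).inv_mem (comm_mem_left hg x)

instance gam_normal (n : ℕ) : (gam G n).Normal := inferInstance

/-- `α` moves every `γ_i` into `γ_{i+j}` (here `j = a + 1`) -/
def Deep (a : ℕ) (α : MulAut G) : Prop :=
  ∀ i : ℕ, ∀ g ∈ gam G i, α g * g⁻¹ ∈ gam G (i + a + 1)

theorem Deep.quot {a : ℕ} {α : MulAut G} (h : Deep a α) {i : ℕ} {g : G} (hg : g ∈ gam G i) :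
    (QuotientGroup.mk (α g) : G ⧸ gam G (i + a + 1)) = QuotientGroup.mk g := by
  have h1 := h i g hg
  have h2 : (QuotientGroup.mk (α g * g⁻¹) : G ⧸ gam G (i + a + 1)) = 1 :=
    (QuotientGroup.eq_one_iff _).2 h1
  rw [QuotientGroup.mk_mul, QuotientGroup.mk_inv, mul_inv_eq_one] at h2
  exact h2

theorem deep_of_autC (α : MulAut G) (hα : α ∈ AutC G) : Deep 0 α := by
  intro i g hg
  obtain ⟨x, hx⟩ := isConj_iff.1 (hα g)
  rw [← hx]
  have := comm_mem_right hg x
  rw [commutatorElement_def] at this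
  exact this

theorem Deep.mul {a : ℕ} {α β : MulAut G} (hα : Deep a α) (hβ : Deep a β) : Deep a (α * β) := by
  intro i g hg
  have h1 := hβ i g hg
  have h2 := hα i (β g) (gam_char i β hg)
  have : (α * β) g * g⁻¹ = (α (β g) * (β g)⁻¹) * (β g * g⁻¹) := by
    simp [MulAut.mul_apply]
  rw [this]
  exact (gam G _).mul_mem h2 h1

theorem Deep.inv {a : ℕ} {α : MulAut G} (hα : Deep a α) : Deep a α⁻¹ := by
  intro i g hg
  have h1 := hα i (α⁻¹ g) (gam_char i α⁻¹ hg)
  rw [MulAut.apply_inv_self] at h1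
  have h2 := (gam G _).inv_mem h1
  simpa using h2

theorem Deep.one (a : ℕ) : Deep a (1 : MulAut G) := by
  intro i g _
  simp

theorem Deep.comm {a : ℕ} {α β : MulAut G} (hα : Deep a α) (hβ : Deep 0 β) :
    Deep (a + 1) ⁅α, β⁆ := by
  intro i g hg
  -- work with `h = (β α)⁻¹ g`
  set h : G := (β * α)⁻¹ g with hh
  have hhi : h ∈ gam G i := gam_char i _ hg
  have hg' : g = β (α h) := by
    rw [hh]
    change g = (β * α) ((β * α)⁻¹ g)
    rw [MulAut.apply_inv_self]
  have hab : ⁅α, β⁆ g = α (β h) := by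
    rw [commutatorElement_def]
    have : α * β * α⁻¹ * β⁻¹ = (α * β) * (β * α)⁻¹ := by group
    rw [this, MulAut.mul_apply, MulAut.mul_apply, ← hh]
  rw [hab, hg']
  -- β h = u h, α h = v h
  set N := gam G (i + (a + 1) + 1) with hN
  have key : (QuotientGroup.mk (α (β h)) : G ⧸ N) = QuotientGroup.mk (β (α h)) := by
    set u := β h * h⁻¹ with hu
    set v := α h * h⁻¹ with hv
    have hu' : u ∈ gam G (i + 0 + 1) := hβ i h hhi
    have hv' : v ∈ gam G (i + a + 1) := hα i h hhi
    have hβh : β h = u * h := by rw [hu]; group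
    have hαh : α h = v * h := by rw [hv]; group
    have e1 : (QuotientGroup.mk (α u) : G ⧸ N) = QuotientGroup.mk u := by
      have := hα (i + 0 + 1) u hu'
      have h2 : α u * u⁻¹ ∈ N := by
        have hidx : i + 0 + 1 + a + 1 = i + (a + 1) + 1 := by ring
        rw [hN, ← hidx]; exact this
      have h3 : (QuotientGroup.mk (α u * u⁻¹) : G ⧸ N) = 1 := (QuotientGroup.eq_one_iff _).2 h2
      rw [QuotientGroup.mk_mul, QuotientGroup.mk_inv, mul_inv_eq_one] at h3
      exact h3
    have e2 : (QuotientGroup.mk (β v) : G ⧸ N) = QuotientGroup.mk v := by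
      have := hβ (i + a + 1) v hv'
      have h2 : β v * v⁻¹ ∈ N := by
        have hidx : i + a + 1 + 0 + 1 = i + (a + 1) + 1 := by ring
        rw [hN, ← hidx]; exact this
      have h3 : (QuotientGroup.mk (β v * v⁻¹) : G ⧸ N) = 1 := (QuotientGroup.eq_one_iff _).2 h2
      rw [QuotientGroup.mk_mul, QuotientGroup.mk_inv, mul_inv_eq_one] at h3
      exact h3
    have e3 : (QuotientGroup.mk (u * v) : G ⧸ N) = QuotientGroup.mk (v * u) := by
      have h2 : ⁅u, v⁆ ∈ N := by
        have := comm_mem_right hv' u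
        have hidx : i + a + 1 + 1 = i + (a + 1) + 1 := by ring
        rw [hN, ← hidx]; exact this
      have h3 : (QuotientGroup.mk (⁅u, v⁆) : G ⧸ N) = 1 := (QuotientGroup.eq_one_iff _).2 h2
      have h4 : u * v = ⁅u, v⁆ * (v * u) := by rw [commutatorElement_def]; group
      rw [h4, QuotientGroup.mk_mul, h3, one_mul]
    have l : (QuotientGroup.mk (α (β h)) : G ⧸ N) = QuotientGroup.mk (u * v) * QuotientGroup.mk h := by
      rw [hβh, map_mul, hαh, QuotientGroup.mk_mul, e1, ← QuotientGroup.mk_mul, ← QuotientGroup.mk_mul]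
      congr 1
      group
    have r : (QuotientGroup.mk (β (α h)) : G ⧸ N) = QuotientGroup.mk (v * u) * QuotientGroup.mk h := by
      rw [hαh, map_mul, hβh, QuotientGroup.mk_mul, e2, ← QuotientGroup.mk_mul, ← QuotientGroup.mk_mul]
      congr 1
      group
    rw [l, r, e3]
  have h5 : (QuotientGroup.mk (α (β h) * (β (α h))⁻¹) : G ⧸ N) = 1 := by
    rw [QuotientGroup.mk_mul, QuotientGroup.mk_inv, key, mul_inv_cancel]
  exact (QuotientGroup.eq_one_iff _).1 h5

/-- the subgroup of automorphisms `α` in `AutC G` with `Deep a α` and, at the point `x`,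
simulated by an element of `γ_{a+1}(G)` -/
def SimAt (x : G) (a : ℕ) : Subgroup (AutC G) where
  carrier := {α | Deep a (α : MulAut G) ∧ ∃ z ∈ gam G a, (α : MulAut G) x = z * x * z⁻¹}
  one_mem' := ⟨Deep.one a, 1, Subgroup.one_mem _, by simp⟩
  mul_mem' := by
    rintro α β ⟨h1, z, hz, hz'⟩ ⟨h2, w, hw, hw'⟩
    refine ⟨Deep.mul h1 h2, (α : MulAut G) w * z, (gam G a).mul_mem (gam_char a _ hw) hz, ?_⟩
    change (α : MulAut G) ((β : MulAut G) x) = _
    rw [hw', map_mul, map_mul, hz', map_inv]
    group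
  inv_mem' := by
    rintro α ⟨h1, z, hz, hz'⟩
    refine ⟨Deep.inv h1, ((α : MulAut G)⁻¹ z)⁻¹, (gam G a).inv_mem (gam_char a _ hz), ?_⟩
    have h2 : x = (α : MulAut G)⁻¹ z * (α : MulAut G)⁻¹ x * ((α : MulAut G)⁻¹ z)⁻¹ := by
      have h3 : (α : MulAut G)⁻¹ ((α : MulAut G) x) = (α : MulAut G)⁻¹ (z * x * z⁻¹) := by
        rw [hz']
      rwa [MulAut.inv_apply_self, map_mul, map_mul, map_inv] at h3
    change (α : MulAut G)⁻¹ x = _
    rw [inv_inv]
    calc (α : MulAut G)⁻¹ x
        = ((α : MulAut G)⁻¹ z)⁻¹ * (((α : MulAut G)⁻¹ z) * ((α : MulAut G)⁻¹ x) *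
            ((α : MulAut G)⁻¹ z)⁻¹) * ((α : MulAut G)⁻¹ z) := by group
      _ = _ := by rw [← h2]

theorem lcs_le_SimAt (x : G) (a : ℕ) :
    (⊤ : Subgroup (AutC G)).lowerCentralSeries a ≤ SimAt x a := by
  induction a with
  | zero =>
    intro α _
    refine ⟨deep_of_autC _ α.2, ?_⟩
    obtain ⟨z, hz⟩ := isConj_iff.1 (α.2 x)
    exact ⟨z, by simp [gam], hz.symm⟩
  | succ a ih =>
    rw [Subgroup.lowerCentralSeries_succ, Subgroup.commutator_le]
    rintro α hα β _
    obtain ⟨hαd, z, hz, hz'⟩ := ih hα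
    have hβd : Deep 0 (β : MulAut G) := deep_of_autC _ β.2
    obtain ⟨y, hy⟩ := isConj_iff.1 (β.2 x)
    have hd : Deep (a + 1) ((⁅α, β⁆ : AutC G) : MulAut G) := by
      exact Deep.comm hαd hβd
    refine ⟨hd, ?_⟩
    -- α x = z x z⁻¹, β x = y x y⁻¹; α = inn z ∘ A, β = inn y ∘ B
    set A : MulAut G := (MulAut.conj z)⁻¹ * (α : MulAut G) with hA
    set B : MulAut G := (MulAut.conj y)⁻¹ * (β : MulAut G) with hB
    have hαA : (α : MulAut G) = MulAut.conj z * A := by rw [hA]; group
    have hβB : (β : MulAut G) = MulAut.conj y * B := by rw [hB]; group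
    have hAx : A x = x := by
      rw [hA, MulAut.mul_apply, hz', ← MulAut.conj_apply, MulAut.inv_apply_self]
    have hBx : B x = x := by
      rw [hB, MulAut.mul_apply, ← hy, ← MulAut.conj_apply, MulAut.inv_apply_self]
    set N := gam G (a + 1) with hN
    -- `A` is trivial modulo `N`
    have hAN : ∀ g : G, (QuotientGroup.mk (A g) : G ⧸ N) = QuotientGroup.mk g := by
      intro g
      have h1 : (QuotientGroup.mk ((α : MulAut G) g) : G ⧸ N) = QuotientGroup.mk g := by
        have h0 : (α : MulAut G) g * g⁻¹ ∈ N := by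
          have := hαd 0 g (by simp [gam])
          have hidx : 0 + a + 1 = a + 1 := by ring
          rw [hN, ← hidx]; exact this
        have h3 : (QuotientGroup.mk ((α : MulAut G) g * g⁻¹) : G ⧸ N) = 1 :=
          (QuotientGroup.eq_one_iff _).2 h0
        rw [QuotientGroup.mk_mul, QuotientGroup.mk_inv, mul_inv_eq_one] at h3
        exact h3
      have h2 : A g = z⁻¹ * (α : MulAut G) g * z := by
        rw [hA, MulAut.mul_apply, ← map_inv, MulAut.conj_apply, inv_inv]
      have h3 : z⁻¹ * (α : MulAut G) g * z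
          = ⁅z⁻¹, (α : MulAut G) g⁆ * (α : MulAut G) g := by
        rw [commutatorElement_def]; group
      have h4 : ⁅z⁻¹, (α : MulAut G) g⁆ ∈ N := comm_mem_left ((gam G a).inv_mem hz) _
      have h5 : (QuotientGroup.mk (⁅z⁻¹, (α : MulAut G) g⁆) : G ⧸ N) = 1 :=
        (QuotientGroup.eq_one_iff _).2 h4
      rw [h2, h3, QuotientGroup.mk_mul, h5, one_mul, h1]
    have hNB : ∀ (C : MulAut G) (g : G), g ∈ N → C g ∈ N := fun C g hg => gam_char (a + 1) C hg
    -- congruences modulo `N` are preserved by automorphisms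
    have hcong : ∀ (C : MulAut G) (g h : G), (QuotientGroup.mk g : G ⧸ N) = QuotientGroup.mk h →
        (QuotientGroup.mk (C g) : G ⧸ N) = QuotientGroup.mk (C h) := by
      intro C g h hgh
      rw [QuotientGroup.eq] at hgh ⊢
      have := hNB C _ hgh
      rwa [map_mul, map_inv] at this
    have hAinv : ∀ g : G, (QuotientGroup.mk (A⁻¹ g) : G ⧸ N) = QuotientGroup.mk g := by
      intro g
      have := hAN (A⁻¹ g)
      rw [MulAut.apply_inv_self] at this
      exact this.symm
    set δ : MulAut G := ⁅A, B⁆ with hδ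
    have hδx : δ x = x := by
      rw [hδ, commutatorElement_def, MulAut.mul_apply, MulAut.mul_apply, MulAut.mul_apply]
      have hB' : B⁻¹ x = x := by
        conv_lhs => rw [← hBx]
        rw [MulAut.inv_apply_self]
      have hA' : A⁻¹ x = x := by
        conv_lhs => rw [← hAx]
        rw [MulAut.inv_apply_self]
      rw [hB', hA', hBx, hAx]
    have hδN : ∀ g : G, (QuotientGroup.mk (δ g) : G ⧸ N) = QuotientGroup.mk g := by
      intro g
      rw [hδ, commutatorElement_def, MulAut.mul_apply, MulAut.mul_apply, MulAut.mul_apply, hAN]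
      rw [hcong B _ _ (hAinv (B⁻¹ g)), MulAut.apply_inv_self]
    have hBz : (QuotientGroup.mk (B z) : G ⧸ N) = QuotientGroup.mk z := by
      have h1 : (QuotientGroup.mk ((β : MulAut G) z) : G ⧸ N) = QuotientGroup.mk z := by
        have h0 : (β : MulAut G) z * z⁻¹ ∈ N := by
          have := hβd a z hz
          have hidx : a + 0 + 1 = a + 1 := by ring
          rw [hN, ← hidx]; exact this
        have h3 : (QuotientGroup.mk ((β : MulAut G) z * z⁻¹) : G ⧸ N) = 1 :=
          (QuotientGroup.eq_one_iff _).2 h0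
        rw [QuotientGroup.mk_mul, QuotientGroup.mk_inv, mul_inv_eq_one] at h3
        exact h3
      have h2 : B z = y⁻¹ * (β : MulAut G) z * y := by
        rw [hB, MulAut.mul_apply, ← map_inv, MulAut.conj_apply, inv_inv]
      have h3 : y⁻¹ * (β : MulAut G) z * y
          = ⁅y⁻¹, (β : MulAut G) z⁆ * (β : MulAut G) z := by
        rw [commutatorElement_def]; group
      have h4 : ⁅y⁻¹, (β : MulAut G) z⁆ ∈ N := comm_mem_right (gam_char a _ hz) _
      have h5 : (QuotientGroup.mk (⁅y⁻¹, (β : MulAut G) z⁆) : G ⧸ N) = 1 :=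
        (QuotientGroup.eq_one_iff _).2 h4
      rw [h2, h3, QuotientGroup.mk_mul, h5, one_mul, h1]
    have conjmul : ∀ (C : MulAut G) (g : G), C * MulAut.conj g = MulAut.conj (C g) * C := by
      intro C g
      ext t
      simp [MulAut.mul_apply, MulAut.conj_apply]
    refine ⟨z * A y * (δ (y * B z))⁻¹, ?_, ?_⟩
    · have h1 : (QuotientGroup.mk (z * A y * (δ (y * B z))⁻¹) : G ⧸ N) = 1 := by
        rw [QuotientGroup.mk_mul, QuotientGroup.mk_inv, hδN, QuotientGroup.mk_mul,
          QuotientGroup.mk_mul, hAN, hBz, ← QuotientGroup.mk_mul, ← QuotientGroup.mk_mul,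
          ← QuotientGroup.mk_inv, ← QuotientGroup.mk_mul]
        have h4 : ⁅z, y⁆ ∈ N := comm_mem_left hz _
        have h5 : z * y * (y * z)⁻¹ = ⁅z, y⁆ := by rw [commutatorElement_def]; group
        rw [h5]
        exact (QuotientGroup.eq_one_iff _).2 h4
      exact (QuotientGroup.eq_one_iff _).1 h1
    · have h1 : ((⁅α, β⁆ : AutC G) : MulAut G)
          = MulAut.conj (z * A y * (δ (y * B z))⁻¹) * δ := by
        have e1 : ((⁅α, β⁆ : AutC G) : MulAut G)
            = ((α : MulAut G) * (β : MulAut G)) * ((β : MulAut G) * (α : MulAut G))⁻¹ := by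
          rw [commutatorElement_def]
          push_cast
          group
        have e2 : (α : MulAut G) * (β : MulAut G) = MulAut.conj (z * A y) * (A * B) := by
          rw [hαA, hβB, mul_assoc, ← mul_assoc A, conjmul, map_mul]
          group
        have e3 : (β : MulAut G) * (α : MulAut G) = MulAut.conj (y * B z) * (B * A) := by
          rw [hαA, hβB, mul_assoc, ← mul_assoc B, conjmul, map_mul]
          group
        have e4 : δ * (MulAut.conj (y * B z))⁻¹ = (MulAut.conj (δ (y * B z)))⁻¹ * δ := by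
          rw [← map_inv, conjmul, map_inv, map_inv]
        rw [e1, e2, e3, mul_inv_rev]
        calc MulAut.conj (z * A y) * (A * B) * ((B * A)⁻¹ * (MulAut.conj (y * B z))⁻¹)
            = MulAut.conj (z * A y) * (δ * (MulAut.conj (y * B z))⁻¹) := by
              rw [hδ, commutatorElement_def]; group
          _ = MulAut.conj (z * A y) * ((MulAut.conj (δ (y * B z)))⁻¹ * δ) := by rw [e4]
          _ = _ := by rw [map_mul MulAut.conj (z * A y), map_inv MulAut.conj]; group
      rw [h1, MulAut.mul_apply, hδx, MulAut.conj_apply]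

end Pool.Agent.Helper973_OutC
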